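import Pool.Agent.Helper80.LR.Asym

set_option autoImplicit false
open Classical Filter Topology

namespace Pool.Agent.Helper80.LR

theorem prRect_mono (hM : MonoStmt) {n k : ℕ} {p q : ℝ} (h0 : 0 ≤ p) (hpq : p ≤ q) (h1 : q ≤ 1) :
    prRect n k p ≤ prRect n k q := by
  have h := hM (Fin n × Fin n × Fin n) (fun S => ∃ L : Fin n → Fin n → Fin n,
        (∀ i : Fin n, (i : ℕ) < k → Function.Injective (L i)) ∧
        (∀ j : Fin n, Set.InjOn (fun i => L i j) {i : Fin n | (i : ℕ) < k}) ∧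
        ∀ i j : Fin n, (i : ℕ) < k → (i, j, L i j) ∈ S)
    (fun S T hST ⟨L, h1, h2, h3⟩ => ⟨L, h1, h2, fun i j hi => hST (h3 i j hi)⟩) p q h0 hpq h1
  have hc : Fintype.card (Fin n × Fin n × Fin n) = n ^ 3 := by
    simp [Fintype.card_prod, Fintype.card_fin]; ring
  rw [hc] at h
  unfold prRect
  convert h

/-- the upper bound for the threshold -/
theorem upper (hD : DangerStmt) (hLo : LossStmt) (hS : SparseStmt) (hLa : LargeStmt)
    (hH : HallStmt) (hM : MonoStmt) (hT : TransferStmt) (c : ℝ) (hc : c < 1 / 2)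
    (k : ℕ → ℕ) (hk1 : ∀ n, 1 ≤ k n)
    (hkc : ∀ᶠ n : ℕ in atTop, (k n : ℝ) ≤ c * n) (ε : ℝ) (hε : 0 < ε)
    (p : ℕ → ℝ) (hp01 : ∀ n, 0 ≤ p n ∧ p n ≤ 1)
    (hp : ∀ᶠ n : ℕ in atTop, (1 + ε) * Real.log ((k n : ℝ) * n) / n ≤ p n) :
    Tendsto (fun n : ℕ => prRect n (k n) (p n)) atTop (𝓝 1) := by
  have hle1 : ∀ n, prRect n (k n) (p n) ≤ 1 := by
    intro n
    have h1 := prN_compl (p n) (Rect (n := n) (k n))
    have h2 : 0 ≤ prN n (p n) (fun G => ¬ Rect (k n) G) := by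
      rw [prN_eq]
      refine Finset.sum_nonneg fun G _ => mul_nonneg (W_nonneg (hp01 n).1 (hp01 n).2 G) ?_
      split_ifs <;> norm_num
    rw [hT]; linarith
  obtain ⟨c', hc'⟩ : ∃ c', c' = max c (1 / 4) := ⟨_, rfl⟩
  have hc1 : c ≤ c' := by rw [hc']; exact le_max_left _ _
  have hc2 : c' < 1 / 2 := by rw [hc']; exact max_lt hc (by norm_num)
  have hc3 : 0 < c' := lt_of_lt_of_le (by norm_num : (0:ℝ) < 1 / 4) (by rw [hc']; exact le_max_right _ _)
  obtain ⟨ε', hε'⟩ : ∃ ε', ε' = min ε (1 / 2) := ⟨_, rfl⟩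
  have he1 : ε' ≤ ε := by rw [hε']; exact min_le_left _ _
  have he2 : ε' ≤ 1 / 2 := by rw [hε']; exact min_le_right _ _
  have he3 : 0 < ε' := by rw [hε']; exact lt_min hε (by norm_num)
  have hkc' : ∀ᶠ n : ℕ in atTop, (k n : ℝ) ≤ c' * n := by
    filter_upwards [hkc] with n hn
    exact hn.trans (mul_le_mul_of_nonneg_right hc1 (Nat.cast_nonneg n))
  obtain ⟨p', hp'⟩ : ∃ p' : ℕ → ℝ, ∀ n, p' n = (1 + ε') * Real.log ((k n : ℝ) * n) / n :=
    ⟨_, fun n => rfl⟩
  have hfail := fail_tendsto hD hLo hS hLa hH c' hc2 hc3 k hk1 hkc' ε' he3 he2 p' hp'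
  have hlow : ∀ᶠ n : ℕ in atTop,
      1 - prN n (p' n) (fun G => ¬ Rect (k n) G) ≤ prRect n (k n) (p n) := by
    filter_upwards [hp, eventually_ge_atTop 2] with n hpn hn2
    have hn1 : (1 : ℝ) ≤ n := by exact_mod_cast (by omega : 1 ≤ n)
    have hk1' : (1 : ℝ) ≤ k n := by exact_mod_cast (hk1 n)
    have hlog : 0 ≤ Real.log ((k n : ℝ) * n) := Real.log_nonneg (by nlinarith)
    have h0 : 0 ≤ p' n := by
      rw [hp']
      exact div_nonneg (mul_nonneg (by linarith) hlog) (by linarith)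
    have hle : p' n ≤ p n := by
      refine le_trans ?_ hpn
      rw [hp']
      refine div_le_div_of_nonneg_right ?_ (by linarith)
      exact mul_le_mul_of_nonneg_right (by linarith) hlog
    have hm := prRect_mono hM (n := n) (k := k n) h0 hle (hp01 n).2
    rw [hT n (k n) (p' n)] at hm
    have := prN_compl (p' n) (Rect (n := n) (k n))
    linarith
  have hlim : Tendsto (fun n : ℕ => 1 - prN n (p' n) (fun G => ¬ Rect (k n) G)) atTop (𝓝 1) := by
    simpa using hfail.const_sub 1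
  exact tendsto_of_tendsto_of_tendsto_of_le_of_le' hlim tendsto_const_nhds hlow
    (Eventually.of_forall hle1)

end Pool.Agent.Helper80.LR
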