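import Mathlib

/-!
# Project LR (MP_56dece_co): sharp threshold for Latin rectangles

Rows are `i : Fin n`; the random triple system of `[n]^3` is given row by row:
`G i : Finset (Fin n × Fin n)` is the set of cells (column, symbol) present in row `i`.
-/

set_option autoImplicit false
open Classical Filter Topology

namespace Pool.Agent.Helper80.LR

/-- cells (column, symbol) of one row -/
abbrev Cell (n : ℕ) := Fin n × Fin n

/-- the `n` cells at a vertex of the bipartite graph of a row: `inl j` is the column `j`, `inr s` is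
the symbol `s` -/
noncomputable def star {n : ℕ} (v : Fin n ⊕ Fin n) : Finset (Cell n) :=
  Finset.univ.filter (fun e => Sum.elim (fun j => e.1 = j) (fun s => e.2 = s) v)

/-- weight of a cell set in one row: each cell is present with probability `p` -/
noncomputable def wt (n : ℕ) (p : ℝ) (G : Finset (Cell n)) : ℝ :=
  p ^ G.card * (1 - p) ^ (n ^ 2 - G.card)

/-- probability of an event in one row -/
noncomputable def pr1 (n : ℕ) (p : ℝ) (A : Finset (Cell n) → Prop) : ℝ :=
  ∑ G ∈ (Finset.univ : Finset (Finset (Cell n))).filter A, wt n p G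

/-- probability of an event for `n` independent rows -/
noncomputable def prN (n : ℕ) (p : ℝ) (A : (Fin n → Finset (Cell n)) → Prop) : ℝ :=
  ∑ G ∈ (Finset.univ : Finset (Fin n → Finset (Cell n))).filter A, ∏ i, wt n p (G i)

/-- every vertex has degree at most `k` in `U` -/
def MaxDeg {n : ℕ} (k : ℕ) (U : Finset (Cell n)) : Prop := ∀ v, (U ∩ star v).card ≤ k

/-- some vertex has at most `L` cells of `G` outside `U` -/
def Danger {n : ℕ} (L : ℝ) (G U : Finset (Cell n)) : Prop := ∃ v, (((G \ U) ∩ star v).card : ℝ) ≤ L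

/-- local sparsity -/
def Sparse {n : ℕ} (d a0 : ℝ) (G : Finset (Cell n)) : Prop :=
  ∀ S T : Finset (Fin n), T.card < S.card → (S.card : ℝ) ≤ a0 →
    ((G.filter (fun e => e.1 ∈ S ∧ e.2 ∈ T)).card : ℝ) < d * S.card ∧
    ((G.filter (fun e => e.1 ∈ T ∧ e.2 ∈ S)).card : ℝ) < d * S.card

/-- large sets are joined outside `U` -/
def Large {n : ℕ} (a0 : ℝ) (G U : Finset (Cell n)) : Prop :=
  ∀ S T : Finset (Fin n), S.card + T.card = n + 1 → a0 ≤ (S.card : ℝ) → a0 ≤ (T.card : ℝ) →
    ∃ e ∈ G \ U, e.1 ∈ S ∧ e.2 ∈ T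

/-- a perfect matching inside `G` -/
def HasPM {n : ℕ} (G : Finset (Cell n)) : Prop := ∃ σ : Equiv.Perm (Fin n), ∀ j, (j, σ j) ∈ G

/-- the rows `G` contain a Latin rectangle on the rows `i < k` -/
def Rect {n : ℕ} (k : ℕ) (G : Fin n → Finset (Cell n)) : Prop :=
  ∃ L : Fin n → Fin n → Fin n,
    (∀ i : Fin n, (i : ℕ) < k → Function.Injective (L i)) ∧
    (∀ j : Fin n, Set.InjOn (fun i => L i j) {i : Fin n | (i : ℕ) < k}) ∧
    ∀ i j : Fin n, (i : ℕ) < k → (j, L i j) ∈ G i

/-- the probability that the random triple system in `[n]^3` contains a Latin rectangle on the rows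
`i < k` (for `k = n`: a Latin square) -/
noncomputable def prRect (n k : ℕ) (p : ℝ) : ℝ :=
  ∑ S ∈ (Finset.univ : Finset (Finset (Fin n × Fin n × Fin n))).filter
      (fun S => ∃ L : Fin n → Fin n → Fin n,
        (∀ i : Fin n, (i : ℕ) < k → Function.Injective (L i)) ∧
        (∀ j : Fin n, Set.InjOn (fun i => L i j) {i : Fin n | (i : ℕ) < k}) ∧
        ∀ i j : Fin n, (i : ℕ) < k → (i, j, L i j) ∈ S),
    p ^ S.card * (1 - p) ^ (n ^ 3 - S.card)

/-! ## basic facts -/

theorem wt_nonneg {n : ℕ} {p : ℝ} (h0 : 0 ≤ p) (h1 : p ≤ 1) (G : Finset (Cell n)) : 0 ≤ wt n p G :=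
  mul_nonneg (pow_nonneg h0 _) (pow_nonneg (by linarith) _)

/-- generating function of the number of cells inside `A` -/
theorem gf (n : ℕ) (p x : ℝ) (A : Finset (Cell n)) :
    ∑ G : Finset (Cell n), wt n p G * x ^ (G ∩ A).card = (1 - p + p * x) ^ A.card := by
  have key : ∀ s : Finset (Cell n), ∀ f g : Cell n → ℝ,
      ∏ i ∈ s, (f i + g i) = ∑ t ∈ s.powerset, (∏ i ∈ t, f i) * ∏ i ∈ s \ t, g i := by
    intro s f g; exact Finset.prod_add f g s
  have h := key Finset.univ (fun i => if i ∈ A then p * x else p) (fun _ => 1 - p)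
  have hcard : ∀ G : Finset (Cell n), (Finset.univ \ G).card = n ^ 2 - G.card := by
    intro G
    rw [Finset.card_sdiff_of_subset (Finset.subset_univ G), Finset.card_univ]
    simp [sq]
  have hr : ∑ t ∈ (Finset.univ : Finset (Cell n)).powerset,
      (∏ i ∈ t, (if i ∈ A then p * x else p)) * ∏ i ∈ Finset.univ \ t, (1 - p)
      = ∑ G : Finset (Cell n), wt n p G * x ^ (G ∩ A).card := by
    rw [Finset.powerset_univ]
    refine Finset.sum_congr rfl fun G _ => ?_
    rw [Finset.prod_const, hcard G]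
    have : ∏ i ∈ G, (if i ∈ A then p * x else p) = p ^ G.card * x ^ (G ∩ A).card := by
      have h2 : ∀ i ∈ G, (if i ∈ A then p * x else p) = p * (if i ∈ A then x else 1) := by
        intro i _; split_ifs <;> ring
      rw [Finset.prod_congr rfl h2, Finset.prod_mul_distrib, Finset.prod_const,
        Finset.prod_ite, Finset.prod_const, Finset.prod_const_one, mul_one]
      congr 2
    rw [this, wt]; ring
  rw [← hr, ← h]
  have h3 : ∀ i ∈ (Finset.univ : Finset (Cell n)), ((if i ∈ A then p * x else p) + (1 - p))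
      = if i ∈ A then (1 - p + p * x) else 1 := by
    intro i _; split_ifs <;> ring
  rw [Finset.prod_congr rfl h3, Finset.prod_ite, Finset.prod_const, Finset.prod_const_one, mul_one]
  congr 1
  simp

theorem sum_wt (n : ℕ) (p : ℝ) : ∑ G : Finset (Cell n), wt n p G = 1 := by
  have := gf n p 1 ∅
  simpa using this

theorem pr1_mono {n : ℕ} {p : ℝ} (h0 : 0 ≤ p) (h1 : p ≤ 1) {A B : Finset (Cell n) → Prop}
    (h : ∀ G, A G → B G) : pr1 n p A ≤ pr1 n p B := by
  refine Finset.sum_le_sum_of_subset_of_nonneg ?_ (fun G _ _ => wt_nonneg h0 h1 G)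
  intro G hG
  simp only [Finset.mem_filter, Finset.mem_univ, true_and] at hG ⊢
  exact h G hG

/-- union bound -/
theorem pr1_exists_le {n : ℕ} {p : ℝ} (h0 : 0 ≤ p) (h1 : p ≤ 1) {β : Type*} (s : Finset β)
    (A : β → Finset (Cell n) → Prop) :
    pr1 n p (fun G => ∃ b ∈ s, A b G) ≤ ∑ b ∈ s, pr1 n p (A b) := by
  have h2 : ∀ A : Finset (Cell n) → Prop, pr1 n p A = ∑ G, if A G then wt n p G else 0 := by
    intro A; rw [pr1, Finset.sum_filter]
  simp only [h2]
  rw [Finset.sum_comm]
  refine Finset.sum_le_sum fun G _ => ?_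
  by_cases hG : ∃ b ∈ s, A b G
  · rw [if_pos hG]
    obtain ⟨b, hb, hA⟩ := hG
    have : (if A b G then wt n p G else 0) ≤ ∑ b ∈ s, if A b G then wt n p G else 0 :=
      Finset.single_le_sum (f := fun b => if A b G then wt n p G else 0)
        (fun b _ => by split_ifs; exacts [wt_nonneg h0 h1 G, le_rfl]) hb
    rwa [if_pos hA] at this
  · rw [if_neg hG]
    refine Finset.sum_nonneg fun b _ => ?_
    split_ifs
    · exact wt_nonneg h0 h1 G
    · exact le_rfl

/-- Markov with the generating function, lower tail (`0 < x ≤ 1`) -/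
theorem pr1_card_le {n : ℕ} {p x : ℝ} (h0 : 0 ≤ p) (h1 : p ≤ 1) (hx : 0 < x) (hx1 : x ≤ 1)
    (A : Finset (Cell n)) (L : ℝ) :
    pr1 n p (fun G => ((G ∩ A).card : ℝ) ≤ L) ≤ x ^ (-L) * (1 - p + p * x) ^ A.card := by
  rw [← gf, Finset.mul_sum, pr1]
  calc ∑ G ∈ Finset.univ.filter (fun G : Finset (Cell n) => ((G ∩ A).card : ℝ) ≤ L), wt n p G
      ≤ ∑ G ∈ Finset.univ.filter (fun G : Finset (Cell n) => ((G ∩ A).card : ℝ) ≤ L),
          x ^ (-L) * (wt n p G * x ^ (G ∩ A).card) := by
        refine Finset.sum_le_sum fun G hG => ?_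
        simp only [Finset.mem_filter, Finset.mem_univ, true_and] at hG
        have h3 : (1:ℝ) ≤ x ^ (-L) * x ^ (G ∩ A).card := by
          rw [← Real.rpow_natCast x (G ∩ A).card, ← Real.rpow_add hx]
          exact Real.one_le_rpow_of_pos_of_le_one_of_nonpos hx hx1 (by linarith)
        have := mul_le_mul_of_nonneg_left h3 (wt_nonneg h0 h1 G)
        nlinarith [this]
    _ ≤ ∑ G : Finset (Cell n), x ^ (-L) * (wt n p G * x ^ (G ∩ A).card) := by
        refine Finset.sum_le_sum_of_subset_of_nonneg (Finset.filter_subset _ _) fun G _ _ => ?_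
        have := wt_nonneg h0 h1 G
        positivity

/-- Markov with the generating function, upper tail (`1 ≤ x`) -/
theorem pr1_le_card {n : ℕ} {p x : ℝ} (h0 : 0 ≤ p) (h1 : p ≤ 1) (hx : 1 ≤ x)
    (A : Finset (Cell n)) (L : ℝ) :
    pr1 n p (fun G => L ≤ ((G ∩ A).card : ℝ)) ≤ x ^ (-L) * Real.exp (p * x * A.card) := by
  have hx0 : 0 < x := by linarith
  have hgf : (1 - p + p * x) ^ A.card ≤ Real.exp (p * x * A.card) := by
    rw [mul_comm (p * x) (A.card : ℝ), Real.exp_nat_mul]
    refine pow_le_pow_left₀ (by nlinarith) ?_ _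
    have := Real.add_one_le_exp (p * x)
    linarith
  refine le_trans ?_ (mul_le_mul_of_nonneg_left hgf (by positivity))
  rw [← gf, Finset.mul_sum, pr1]
  calc ∑ G ∈ Finset.univ.filter (fun G : Finset (Cell n) => L ≤ ((G ∩ A).card : ℝ)), wt n p G
      ≤ ∑ G ∈ Finset.univ.filter (fun G : Finset (Cell n) => L ≤ ((G ∩ A).card : ℝ)),
          x ^ (-L) * (wt n p G * x ^ (G ∩ A).card) := by
        refine Finset.sum_le_sum fun G hG => ?_
        simp only [Finset.mem_filter, Finset.mem_univ, true_and] at hG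
        have h3 : (1:ℝ) ≤ x ^ (-L) * x ^ (G ∩ A).card := by
          rw [← Real.rpow_natCast x (G ∩ A).card, ← Real.rpow_add hx0]
          exact Real.one_le_rpow hx (by linarith)
        have := mul_le_mul_of_nonneg_left h3 (wt_nonneg h0 h1 G)
        nlinarith [this]
    _ ≤ ∑ G : Finset (Cell n), x ^ (-L) * (wt n p G * x ^ (G ∩ A).card) := by
        refine Finset.sum_le_sum_of_subset_of_nonneg (Finset.filter_subset _ _) fun G _ _ => ?_
        have := wt_nonneg h0 h1 G
        positivity

/-- probability that `A` is empty -/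
theorem pr1_empty {n : ℕ} (p : ℝ) (A : Finset (Cell n)) :
    pr1 n p (fun G => G ∩ A = ∅) = (1 - p) ^ A.card := by
  have h := gf n p 0 A
  rw [mul_zero, add_zero] at h
  rw [← h, pr1, Finset.sum_filter]
  refine Finset.sum_congr rfl fun G _ => ?_
  by_cases hG : G ∩ A = ∅
  · rw [if_pos hG, hG]; simp
  · rw [if_neg hG, zero_pow (by simpa [Finset.card_eq_zero] using hG), mul_zero]

theorem card_star {n : ℕ} (v : Fin n ⊕ Fin n) : (star v).card = n := by
  rcases v with j | s
  · have : star (Sum.inl j : Fin n ⊕ Fin n) = ({j} : Finset (Fin n)) ×ˢ Finset.univ := by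
      ext e; simp only [star, Sum.elim_inl, Finset.mem_filter, Finset.mem_univ, true_and, Finset.mem_product, Finset.mem_singleton, and_true]
    rw [this, Finset.card_product]; simp
  · have : star (Sum.inr s : Fin n ⊕ Fin n) = Finset.univ ×ˢ ({s} : Finset (Fin n)) := by
      ext e; simp only [star, Sum.elim_inr, Finset.mem_filter, Finset.mem_univ, true_and, Finset.mem_product, Finset.mem_singleton]
    rw [this, Finset.card_product]; simp

end Pool.Agent.Helper80.LR
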