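import Pool.Agent.Helper80.LR.Fail

set_option autoImplicit false
open Classical Filter Topology

namespace Pool.Agent.Helper80.LR

theorem term_le {n k j : ℕ} {x ε h p : ℝ} (hn : 2 ≤ n) (hk : 1 ≤ k) (hε : 0 ≤ ε)
    (hp : p * n = (1 + ε) * Real.log ((k : ℝ) * n)) (hj : p * j ≤ x * Real.log n) :
    (k : ℝ) * (2 * n * Real.exp (-(p * (n - j))) * (n : ℝ) ^ h) ≤ 2 * (n : ℝ) ^ (x + h - ε) := by
  have hn0 : (0 : ℝ) < n := by exact_mod_cast (by omega : 0 < n)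
  have hk0 : (0 : ℝ) < k := by exact_mod_cast (by omega : 0 < k)
  have hlk : 0 ≤ Real.log k := Real.log_nonneg (by exact_mod_cast hk)
  have hlog : Real.log ((k : ℝ) * n) = Real.log k + Real.log n :=
    Real.log_mul hk0.ne' hn0.ne'
  have e1 : (k : ℝ) * (2 * n * Real.exp (-(p * (n - j))) * (n : ℝ) ^ h)
      = 2 * Real.exp (Real.log k + Real.log n + (-(p * (n - j))) + Real.log n * h) := by
    rw [Real.exp_add, Real.exp_add, Real.exp_add, Real.exp_log hk0, Real.exp_log hn0,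
      Real.rpow_def_of_pos hn0]
    ring
  rw [e1, Real.rpow_def_of_pos hn0]
  refine mul_le_mul_of_nonneg_left (Real.exp_le_exp.2 ?_) (by norm_num)
  have e2 : p * ((n : ℝ) - j) = (1 + ε) * (Real.log k + Real.log n) - p * j := by
    rw [mul_sub, hp, hlog]
  rw [e2]
  have : 0 ≤ ε * Real.log k := mul_nonneg hε hlk
  nlinarith

theorem q_facts {n : ℕ} {δ : ℝ} (hn : 2 ≤ n) (hδ0 : 0 < δ) (hδ1 : δ < 1) :
    (n : ℝ) ^ (1 - δ) ≤ (⌈(n : ℝ) ^ (1 - δ)⌉₊ : ℝ) ∧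
    (⌈(n : ℝ) ^ (1 - δ)⌉₊ : ℝ) ≤ 2 * (n : ℝ) ^ (1 - δ) ∧ 0 < ⌈(n : ℝ) ^ (1 - δ)⌉₊ := by
  have hn0 : (0 : ℝ) < n := by exact_mod_cast (by omega : 0 < n)
  have hn1 : (1 : ℝ) ≤ n := by exact_mod_cast (by omega : 1 ≤ n)
  have h1 : (1 : ℝ) ≤ (n : ℝ) ^ (1 - δ) := Real.one_le_rpow hn1 (by linarith)
  refine ⟨Nat.le_ceil _, ?_, Nat.ceil_pos.2 (by linarith)⟩
  have := Nat.ceil_lt_add_one (a := (n : ℝ) ^ (1 - δ)) (by linarith)
  linarith

theorem batches_le {n k q : ℕ} {δ Y B : ℝ} (hn : 2 ≤ n) (hδ0 : 0 < δ)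
    (hkn : k ≤ n) (hq : (n : ℝ) ^ (1 - δ) ≤ q) (hY0 : 0 ≤ Y) (hY : Y ≤ 2 * (n : ℝ) ^ B) :
    ((k / q : ℕ) + 1) * (Y / q) ≤ 4 * (n : ℝ) ^ (2 * δ - 1 + B) := by
  have hn0 : (0 : ℝ) < n := by exact_mod_cast (by omega : 0 < n)
  have hn1 : (1 : ℝ) ≤ n := by exact_mod_cast (by omega : 1 ≤ n)
  have hpos : (0 : ℝ) < (n : ℝ) ^ (1 - δ) := Real.rpow_pos_of_pos hn0 _
  have hq0 : (0 : ℝ) < q := lt_of_lt_of_le hpos hq
  have h1 : ((k / q : ℕ) : ℝ) ≤ (n : ℝ) ^ δ := by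
    refine Nat.cast_div_le.trans ?_
    rw [div_le_iff₀ hq0]
    calc (k : ℝ) ≤ n := by exact_mod_cast hkn
      _ = (n : ℝ) ^ δ * (n : ℝ) ^ (1 - δ) := by
          rw [← Real.rpow_add hn0]; simp
      _ ≤ (n : ℝ) ^ δ * q := mul_le_mul_of_nonneg_left hq (Real.rpow_nonneg hn0.le _)
  have h2 : (1 : ℝ) ≤ (n : ℝ) ^ δ := Real.one_le_rpow hn1 hδ0.le
  have h3 : Y / q ≤ 2 * (n : ℝ) ^ (B - (1 - δ)) := by
    rw [div_le_iff₀ hq0]
    calc Y ≤ 2 * (n : ℝ) ^ B := hY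
      _ = 2 * (n : ℝ) ^ (B - (1 - δ)) * (n : ℝ) ^ (1 - δ) := by
          rw [mul_assoc, ← Real.rpow_add hn0]; congr 2; ring
      _ ≤ 2 * (n : ℝ) ^ (B - (1 - δ)) * q := by
          refine mul_le_mul_of_nonneg_left hq ?_
          have := Real.rpow_nonneg hn0.le (B - (1 - δ))
          linarith
  calc (((k / q : ℕ) : ℝ) + 1) * (Y / q)
      ≤ (2 * (n : ℝ) ^ δ) * (2 * (n : ℝ) ^ (B - (1 - δ))) := by
        refine mul_le_mul (by linarith) h3 (div_nonneg hY0 hq0.le) (by linarith)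
    _ = 4 * ((n : ℝ) ^ δ * (n : ℝ) ^ (B - (1 - δ))) := by ring
    _ = 4 * (n : ℝ) ^ (2 * δ - 1 + B) := by
        rw [← Real.rpow_add hn0]; congr 2; ring

theorem small_le {n k : ℕ} (hn : 2 ≤ n) (hkn : k ≤ n) :
    ((k : ℝ) * (k * k)) * (1 / (n : ℝ) ^ 4) + k * (1 / (n : ℝ) ^ 2) + (k * k) * (1 / (n : ℝ) ^ 4)
      ≤ 3 * (1 / (n : ℝ)) := by
  have hn0 : (0 : ℝ) < n := by exact_mod_cast (by omega : 0 < n)
  have hn1 : (1 : ℝ) ≤ n := by exact_mod_cast (by omega : 1 ≤ n)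
  have hk : (k : ℝ) ≤ n := by exact_mod_cast hkn
  have hk0 : (0 : ℝ) ≤ k := Nat.cast_nonneg k
  have a1 : ((k : ℝ) * (k * k)) * (1 / (n : ℝ) ^ 4) ≤ 1 / n := by
    rw [mul_one_div, div_le_div_iff₀ (by positivity) hn0]
    have h2 : (k : ℝ) * k ≤ n * n := mul_le_mul hk hk hk0 hn0.le
    have h3 : (k : ℝ) * (k * k) ≤ n * (n * n) := mul_le_mul hk h2 (by positivity) hn0.le
    nlinarith
  have a2 : (k : ℝ) * (1 / (n : ℝ) ^ 2) ≤ 1 / n := by
    rw [mul_one_div, div_le_div_iff₀ (by positivity) hn0]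
    nlinarith
  have a3 : ((k : ℝ) * k) * (1 / (n : ℝ) ^ 4) ≤ 1 / n := by
    rw [mul_one_div, div_le_div_iff₀ (by positivity) hn0]
    have h2 : (k : ℝ) * k ≤ n * n := mul_le_mul hk hk hk0 hn0.le
    have h4 : (n : ℝ) * n * n ≤ n ^ 4 := by
      have : (n : ℝ) ^ 4 = n * n * n * n := by ring
      rw [this]
      nlinarith [mul_pos (mul_pos hn0 hn0) hn0]
    nlinarith
  linarith

/-- the upper bound for the failure probability at the density `(1+ε) log(kn)/n`, `ε ≤ 1/2` -/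
theorem fail_tendsto (hD : DangerStmt) (hLo : LossStmt) (hS : SparseStmt) (hLa : LargeStmt)
    (hH : HallStmt) (c : ℝ) (hc : c < 1 / 2) (hc0 : 0 < c) (k : ℕ → ℕ) (hk1 : ∀ n, 1 ≤ k n)
    (hkc : ∀ᶠ n : ℕ in atTop, (k n : ℝ) ≤ c * n) (ε : ℝ) (hε : 0 < ε) (hε2 : ε ≤ 1 / 2)
    (p : ℕ → ℝ) (hp : ∀ n, p n = (1 + ε) * Real.log ((k n : ℝ) * n) / n) :
    Tendsto (fun n : ℕ => prN n (p n) (fun G => ¬ Rect (k n) G)) atTop (𝓝 0) := by
  obtain ⟨η, hη⟩ : ∃ η, η = 1 - 2 * c := ⟨_, rfl⟩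
  have hη0 : 0 < η := by linarith
  have hη1 : η < 1 := by linarith
  obtain ⟨δ, hδ⟩ : ∃ δ, δ = η / 8 := ⟨_, rfl⟩
  obtain ⟨h, hh⟩ : ∃ h, h = min (ε / 2) (η / 8) := ⟨_, rfl⟩
  have hh0 : 0 < h := by rw [hh]; exact lt_min (by linarith) (by linarith)
  have hh1 : h ≤ ε / 2 := by rw [hh]; exact min_le_left _ _
  have hh2 : h ≤ η / 8 := by rw [hh]; exact min_le_right _ _
  obtain ⟨κ, hκ0, _, hκ⟩ := hD h hh0
  obtain ⟨c1, hc10, hc14, N2, hN2⟩ := hS κ hκ0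
  obtain ⟨N3, hN3⟩ := hLa c c1 hc hc10
  obtain ⟨N1, hN1⟩ := hLo κ δ hκ0 (by linarith)
  -- log n / n tends to 0
  have hlim : ∀ᶠ n : ℕ in atTop, 3 * Real.log n ≤ n := by
    have h1 : Tendsto (fun x : ℝ => Real.log x / x) atTop (𝓝 0) := by
      have := Real.isLittleO_log_id_atTop
      exact this.tendsto_div_nhds_zero
    have h2 := (h1.comp tendsto_natCast_atTop_atTop).eventually (gt_mem_nhds (show (0:ℝ) < 1 / 3 by norm_num))
    filter_upwards [h2, eventually_gt_atTop 0] with n hn hn0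
    have hn0' : (0 : ℝ) < n := by exact_mod_cast hn0
    simp only [Function.comp] at hn
    rw [div_lt_iff₀ hn0'] at hn
    linarith
  have hbound : ∀ᶠ n : ℕ in atTop, prN n (p n) (fun G => ¬ Rect (k n) G)
      ≤ 2 * (n : ℝ) ^ (-(ε / 2)) + 3 * (1 / (n : ℝ)) + 4 * (n : ℝ) ^ (-(η / 2)) := by
    filter_upwards [hkc, hlim, eventually_ge_atTop 2, eventually_ge_atTop N1,
      eventually_ge_atTop N2, eventually_ge_atTop N3] with n hkn h3 hn2 hn1 hn2' hn3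
    have hn0 : (0 : ℝ) < n := by exact_mod_cast (by omega : 0 < n)
    have hn1' : (1 : ℝ) ≤ n := by exact_mod_cast (by omega : 1 ≤ n)
    have hk0 : (0 : ℝ) < k n := by exact_mod_cast (hk1 n)
    have hk1' : (1 : ℝ) ≤ k n := by exact_mod_cast (hk1 n)
    have hlk : 0 ≤ Real.log (k n) := Real.log_nonneg hk1'
    have hln : 0 < Real.log n := Real.log_pos (by exact_mod_cast (by omega : 1 < n))
    have hkn' : (k n : ℝ) ≤ n := by nlinarith
    have hknN : k n ≤ n := by exact_mod_cast hkn'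
    have hlkn : Real.log (k n) ≤ Real.log n := Real.log_le_log hk0 hkn'
    have hlog : Real.log ((k n : ℝ) * n) = Real.log (k n) + Real.log n :=
      Real.log_mul hk0.ne' hn0.ne'
    have hpn : p n * n = (1 + ε) * Real.log ((k n : ℝ) * n) := by
      rw [hp n]; field_simp
    have hpn1 : Real.log n ≤ p n * n := by rw [hpn, hlog]; nlinarith
    have hpn3 : p n * n ≤ 3 * Real.log n := by rw [hpn, hlog]; nlinarith
    have hp0 : 0 ≤ p n := by
      by_contra hcon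
      have : p n * n < 0 := mul_neg_of_neg_of_pos (not_le.1 hcon) hn0
      linarith
    have hp1 : p n ≤ 1 := by
      have : p n * n ≤ 1 * n := by linarith
      exact le_of_mul_le_mul_right this hn0
    obtain ⟨hq1, hq2, hq3⟩ := q_facts (n := n) (δ := δ) hn2 (by linarith) (by linarith)
    set q := ⌈(n : ℝ) ^ (1 - δ)⌉₊ with hqdef
    have hmain := fail_le hH (n := n) (k := k n) (q := q) (p := p n) (κ := κ) (h := h)
      (a0 := c1 * n) hp0 hp1 hn2 hknN hq3 hκ0 (by nlinarith)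
      (fun j hj U hU => hκ n j (p n) hn2 hj hp0 hp1 hpn3 U hU)
      (fun W hW => hN1 n hn1 (p n) hp0 hp1 hpn3 q hq2 W hW)
      (hN2 n hn2' (p n) hp0 hp1 hpn3)
      (fun U hU => hN3 n hn3 (p n) hp0 hp1 hpn1 (k n) U hkn hU)
    refine hmain.trans ?_
    have t0 := term_le (n := n) (k := k n) (j := 0) (x := 0) (ε := ε) (h := h) (p := p n) hn2
      (hk1 n) hε.le hpn (by simp)
    have t0' : (n : ℝ) ^ (0 + h - ε) ≤ (n : ℝ) ^ (-(ε / 2)) :=
      Real.rpow_le_rpow_of_exponent_le hn1' (by linarith)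
    have tk := term_le (n := n) (k := k n) (j := k n) (x := 2 * c * (1 + ε)) (ε := ε) (h := h)
      (p := p n) hn2 (hk1 n) hε.le hpn (by
        have e1 : p n * k n = (p n * n) * (k n / n) := by field_simp
        have e2 : (k n : ℝ) / n ≤ c := by rw [div_le_iff₀ hn0]; exact hkn
        have e3 : p n * n ≤ (1 + ε) * (2 * Real.log n) := by
          rw [hpn, hlog]; nlinarith
        have e4 : 0 ≤ p n * n := mul_nonneg hp0 hn0.le
        calc p n * k n = (p n * n) * (k n / n) := e1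
          _ ≤ ((1 + ε) * (2 * Real.log n)) * c :=
              mul_le_mul e3 e2 (by positivity) (by positivity)
          _ = 2 * c * (1 + ε) * Real.log n := by ring)
    have t4 := batches_le (n := n) (k := k n) (q := q) (δ := δ) (B := 2 * c * (1 + ε) + h - ε)
      (Y := (k n : ℝ) * (2 * n * Real.exp (-(p n * (n - (k n : ℕ)))) * (n : ℝ) ^ h)) hn2
      (by linarith) hknN hq1 (by positivity) tk
    have t4' : (n : ℝ) ^ (2 * δ - 1 + (2 * c * (1 + ε) + h - ε)) ≤ (n : ℝ) ^ (-(η / 2)) := by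
      refine Real.rpow_le_rpow_of_exponent_le hn1' ?_
      have : 2 * c * ε ≤ ε := by nlinarith
      nlinarith
    have ts := small_le (n := n) (k := k n) hn2 hknN
    have fin : ∀ A B1 B2 B3 C x0 x y z z0 : ℝ, A ≤ 2 * x0 → x0 ≤ x → B1 + B2 + B3 ≤ 3 * y →
        C ≤ 4 * z0 → z0 ≤ z → A + B1 + B2 + B3 + C ≤ 2 * x + 3 * y + 4 * z := by
      intro A B1 B2 B3 C x0 x y z z0 u1 u2 u3 u4 u5; linarith
    exact fin _ _ _ _ _ _ _ _ _ _ t0 t0' ts t4 t4'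
  have hlim2 : Tendsto (fun n : ℕ => 2 * (n : ℝ) ^ (-(ε / 2)) + 3 * (1 / (n : ℝ))
      + 4 * (n : ℝ) ^ (-(η / 2))) atTop (𝓝 0) := by
    have r1 : Tendsto (fun n : ℕ => (n : ℝ) ^ (-(ε / 2))) atTop (𝓝 0) :=
      (tendsto_rpow_neg_atTop (by linarith)).comp tendsto_natCast_atTop_atTop
    have r2 : Tendsto (fun n : ℕ => (n : ℝ) ^ (-(η / 2))) atTop (𝓝 0) :=
      (tendsto_rpow_neg_atTop (by linarith)).comp tendsto_natCast_atTop_atTop
    have r3 : Tendsto (fun n : ℕ => 1 / (n : ℝ)) atTop (𝓝 0) := tendsto_one_div_atTop_nhds_zero_nat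
    have := ((r1.const_mul 2).add (r3.const_mul 3)).add (r2.const_mul 4)
    simpa using this
  refine squeeze_zero' ?_ hbound hlim2
  filter_upwards [hkc, hlim, eventually_ge_atTop 2] with n hkn h3 hn2
  have hn0 : (0 : ℝ) < n := by exact_mod_cast (by omega : 0 < n)
  have hk0 : (0 : ℝ) < k n := by exact_mod_cast (hk1 n)
  have hk1' : (1 : ℝ) ≤ k n := by exact_mod_cast (hk1 n)
  have hlk : 0 ≤ Real.log (k n) := Real.log_nonneg hk1'
  have hln : 0 < Real.log n := Real.log_pos (by exact_mod_cast (by omega : 1 < n))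
  have hkn' : (k n : ℝ) ≤ n := by nlinarith
  have hlkn : Real.log (k n) ≤ Real.log n := Real.log_le_log hk0 hkn'
  have hlog : Real.log ((k n : ℝ) * n) = Real.log (k n) + Real.log n :=
    Real.log_mul hk0.ne' hn0.ne'
  have hpn : p n * n = (1 + ε) * Real.log ((k n : ℝ) * n) := by
    rw [hp n]; field_simp
  have hpn1 : Real.log n ≤ p n * n := by rw [hpn, hlog]; nlinarith
  have hpn3 : p n * n ≤ 3 * Real.log n := by rw [hpn, hlog]; nlinarith
  have hp0 : 0 ≤ p n := by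
    by_contra hcon
    have : p n * n < 0 := mul_neg_of_neg_of_pos (not_le.1 hcon) hn0
    linarith
  have hp1 : p n ≤ 1 := by
    have : p n * n ≤ 1 * n := by linarith
    exact le_of_mul_le_mul_right this hn0
  rw [prN_eq]
  refine Finset.sum_nonneg fun G _ => mul_nonneg (W_nonneg hp0 hp1 G) ?_
  split_ifs <;> norm_num

end Pool.Agent.Helper80.LR
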