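import Pool.Agent.Helper80.LR.Process

set_option autoImplicit false
open Classical Filter Topology

namespace Pool.Agent.Helper80.LR

theorem degree_drop {n : ℕ} (X A B : Finset (Cell n)) (v : Fin n ⊕ Fin n) {x y : ℝ}
    (h1 : x < (((X \ A) ∩ star v).card : ℝ)) (h2 : ((X ∩ (B \ A) ∩ star v).card : ℝ) ≤ y) :
    x - y < (((X \ B) ∩ star v).card : ℝ) := by
  have hsub : (X \ A) ∩ star v ⊆ ((X \ B) ∩ star v) ∪ (X ∩ (B \ A) ∩ star v) := by
    intro e he
    simp only [Finset.mem_inter, Finset.mem_sdiff, Finset.mem_union] at he ⊢
    tauto
  have h3 := (Finset.card_le_card hsub).trans (Finset.card_union_le _ _)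
  have h4 : (((X \ A) ∩ star v).card : ℝ)
      ≤ (((X \ B) ∩ star v).card : ℝ) + ((X ∩ (B \ A) ∩ star v).card : ℝ) := by exact_mod_cast h3
  linarith

section
variable {n : ℕ} (L : ℝ) (q : ℕ) (G : Fin n → Finset (Cell n)) (act : Finset (Fin n))

/-- rows not processed at time `t` see the process without them -/
theorem used_erase {i : Fin n} {t : ℕ} (h : i ∉ (run L q G act t).done) {s : ℕ} (hs : s ≤ t) :
    (run L q G (act.erase i) s).used = (run L q G act s).used := by
  rw [run_erase L q G act (fun hc => h (done_mono L q G act hs hc))]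

theorem pick_notMem {t : ℕ} {i : Fin n}
    (h : pick L G (act \ (run L q G act t).done) (newRef q t (run L q G act t)) = some i) :
    i ∈ act ∧ i ∉ (run L q G act t).done := Finset.mem_sdiff.1 (pick_mem L G h)

/-- if a row stays dangerous and unprocessed during a whole batch then all rows processed in the
batch were dangerous -/
theorem batch_danger (hq : 0 < q) (b : ℕ) {i : Fin n} (hi : i ∈ act)
    (hd : Danger L (G i) (run L q G act (q * b)).used) (s : ℕ) (hs : s ≤ q)
    (hnot : i ∉ (run L q G act (q * b + s)).done) :
    ∀ j ∈ (run L q G act (q * b + s)).done, j ∉ (run L q G act (q * b)).done →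
      Danger L (G j) (run L q G act (q * b)).used := by
  induction s with
  | zero => intro j hj hj'; exact absurd hj hj'
  | succ s ih =>
    have hnot' : i ∉ (run L q G act (q * b + s)).done :=
      fun hc => hnot (done_mono_succ L q G act _ hc)
    have ih' := ih (by omega) hnot'
    intro j hj hj'
    have hrw : q * b + (s + 1) = (q * b + s) + 1 := by ring
    rw [hrw, run_succ, step] at hj
    have href : newRef q (q * b + s) (run L q G act (q * b + s)) = (run L q G act (q * b)).used := by
      rw [newRef_run]
      have : (q * b + s) / q = b := by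
        rw [Nat.mul_add_div hq, Nat.div_eq_of_lt (by omega), add_zero]
      rw [this]
    split at hj
    · exact ih' j hj hj'
    · rename_i j0 hj0
      simp only [Finset.mem_insert] at hj
      rcases hj with rfl | hj
      · have := pick_danger L G hj0 ⟨i, Finset.mem_sdiff.2 ⟨hi, hnot'⟩, by rw [href]; exact hd⟩
        rwa [href] at this
      · exact ih' j hj hj'

/-- the picked row has a perfect matching outside the used set -/
theorem has_pm (hHall : HallStmt) (k : ℕ) (a0 : ℝ) (hn : 2 ≤ n) (hq : 0 < q) (hL : 0 < L)
    (ha0 : a0 ≤ n / 4) (hact : act.card = k)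
    (H0 : ∀ i ∈ act, ¬ Danger L (G i) ∅)
    (H1 : ∀ i ∈ act, ∀ t' t : ℕ, t' ≤ t → t ≤ t' + q → t < k → ∀ v,
      (((G i) ∩ ((run L q G (act.erase i) t).used \ (run L q G (act.erase i) t').used)
        ∩ star v).card : ℝ) ≤ L / 4)
    (H2 : ∀ i ∈ act, Sparse (L / 4) a0 (G i))
    (H3 : ∀ i ∈ act, ∀ t, t < k → Large a0 (G i) (run L q G (act.erase i) t).used)
    (H4 : ∀ b, q * b < k →
      (act.filter (fun i => Danger L (G i) (run L q G (act.erase i) (q * b)).used)).card ≤ q)
    {t : ℕ} (ht : t < k) {i : Fin n}
    (hp : pick L G (act \ (run L q G act t).done) (newRef q t (run L q G act t)) = some i) :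
    HasPM (G i \ (run L q G act t).used) := by
  obtain ⟨hi, hnot⟩ := pick_notMem L q G act hp
  have hU : ∀ s, s ≤ t → (run L q G (act.erase i) s).used = (run L q G act s).used :=
    fun s hs => used_erase L q G act hnot hs
  have hqt : q * (t / q) ≤ t := Nat.mul_div_le t q
  have htq : t < q * (t / q) + q := by
    have := Nat.lt_mul_div_succ t hq
    rw [Nat.mul_add, mul_one] at this; exact this
  refine hHall n (L / 4) a0 (G i) _ hn (by linarith) ha0 ?_ (H2 i hi) ?_
  · -- degrees
    intro v
    have hloss : ∀ t' s : ℕ, t' ≤ s → s ≤ t' + q → s ≤ t →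
        (((G i) ∩ ((run L q G act s).used \ (run L q G act t').used) ∩ star v).card : ℝ) ≤ L / 4 := by
      intro t' s h1 h2 h3
      have := H1 i hi t' s h1 h2 (by omega) v
      rwa [hU s h3, hU t' (by omega)] at this
    by_cases hd : Danger L (G i) (run L q G act (q * (t / q))).used
    · -- dangerous now: not dangerous at the previous batch
      rcases Nat.eq_zero_or_pos (t / q) with hb | hb
      · exfalso
        rw [hb, mul_zero] at hd
        exact H0 i hi hd
      · obtain ⟨b, hb'⟩ : ∃ b, t / q = b + 1 := ⟨t / q - 1, by omega⟩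
        rw [hb'] at hd hqt htq
        have hqb : q * (b + 1) = q * b + q := by ring
        have hnd : ¬ Danger L (G i) (run L q G act (q * b)).used := by
          intro hd'
          have hnot' : i ∉ (run L q G act (q * b + q)).done := by
            intro hc
            exact hnot (done_mono L q G act (by omega) hc)
          have hall := batch_danger L q G act hq b hi hd' q le_rfl hnot'
          have hsub : insert i ((run L q G act (q * b + q)).done \ (run L q G act (q * b)).done)
              ⊆ act.filter (fun i => Danger L (G i) (run L q G (act.erase i) (q * b)).used) := by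
            intro j hj
            rw [Finset.mem_insert, Finset.mem_sdiff] at hj
            rw [Finset.mem_filter]
            rcases hj with rfl | ⟨hj1, hj2⟩
            · refine ⟨hi, ?_⟩
              rw [used_erase L q G act hnot (by omega)]
              exact hd'
            · refine ⟨done_subset L q G act _ hj1, ?_⟩
              rw [used_erase L q G act hj2 le_rfl]
              exact hall j hj1 hj2
          have hcard := Finset.card_le_card hsub
          rw [Finset.card_insert_of_notMem (fun hc => hnot' (Finset.mem_sdiff.1 hc).1),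
            Finset.card_sdiff_of_subset (done_mono L q G act (by omega)),
            card_done L q G act (by omega), card_done L q G act (by omega)] at hcard
          have := H4 b (by omega)
          omega
        have hdeg : L < (((G i \ (run L q G act (q * b)).used) ∩ star v).card : ℝ) := by
          by_contra hc
          exact hnd ⟨v, not_lt.1 hc⟩
        have h1 := degree_drop (G i) _ _ v hdeg
          (hloss (q * b) (q * (b + 1)) (by omega) (by omega) hqt)
        have h2 := degree_drop (G i) _ _ v h1 (hloss (q * (b + 1)) t hqt htq.le le_rfl)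
        linarith
    · have hdeg : L < (((G i \ (run L q G act (q * (t / q))).used) ∩ star v).card : ℝ) := by
        by_contra hc
        exact hd ⟨v, not_lt.1 hc⟩
      have h1 := degree_drop (G i) _ _ v hdeg (hloss _ t hqt htq.le le_rfl)
      linarith
  · have := H3 i hi t ht
    rwa [hU t le_rfl] at this

theorem pm_spec {X : Finset (Cell n)} (h : HasPM X) :
    ∃ σ : Equiv.Perm (Fin n), (∀ j, (j, σ j) ∈ X) ∧ ∀ j, (j, σ j) ∈ pm X := by
  refine ⟨h.choose, h.choose_spec, fun j => ?_⟩
  unfold pm
  rw [dif_pos h]
  exact Finset.mem_image_of_mem _ (Finset.mem_univ j)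

/-- the rectangle built by the process -/
theorem build (k : ℕ) (hact : act.card = k)
    (hpm : ∀ t, t < k → ∀ i,
      pick L G (act \ (run L q G act t).done) (newRef q t (run L q G act t)) = some i →
      HasPM (G i \ (run L q G act t).used)) (t : ℕ) (ht : t ≤ k) :
    ∃ M : Fin n → Fin n → Fin n,
      (∀ i ∈ (run L q G act t).done, Function.Injective (M i)) ∧
      (∀ i ∈ (run L q G act t).done, ∀ j, (j, M i j) ∈ G i ∧ (j, M i j) ∈ (run L q G act t).used) ∧
      (∀ j, Set.InjOn (fun i => M i j) ((run L q G act t).done : Set (Fin n))) := by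
  induction t with
  | zero =>
    refine ⟨fun _ j => j, ?_, ?_, ?_⟩
    · intro i hi; simp [run] at hi
    · intro i hi; simp [run] at hi
    · intro j i hi; simp [run] at hi
  | succ t ih =>
    obtain ⟨M, hM1, hM2, hM3⟩ := ih (by omega)
    have hne : (act \ (run L q G act t).done).Nonempty := by
      rw [← Finset.card_pos, Finset.card_sdiff_of_subset (done_subset L q G act t),
        card_done L q G act (by omega)]
      omega
    obtain ⟨i, hi⟩ := pick_isSome L G (newRef q t (run L q G act t)) hne
    obtain ⟨σ, hσ1, hσ2⟩ := pm_spec (hpm t (by omega) i hi)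
    obtain ⟨hiact, hnot⟩ := pick_notMem L q G act hi
    have hstep : run L q G act (t + 1)
        = ⟨insert i (run L q G act t).done,
            (run L q G act t).used ∪ pm (G i \ (run L q G act t).used),
            newRef q t (run L q G act t)⟩ := by
      rw [run_succ, step, hi]
    rw [hstep]
    generalize run L q G act t = s at *
    have hupd : ∀ i' ∈ s.done, Function.update M i σ i' = M i' := by
      intro i' hi'
      rw [Function.update_of_ne]
      rintro rfl
      exact hnot hi'
    refine ⟨Function.update M i σ, ?_, ?_, ?_⟩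
    · intro i' hi'
      rcases Finset.mem_insert.1 hi' with rfl | hi'
      · rw [Function.update_self]; exact σ.injective
      · rw [hupd i' hi']; exact hM1 i' hi'
    · intro i' hi' j
      rcases Finset.mem_insert.1 hi' with rfl | hi'
      · rw [Function.update_self]
        exact ⟨(Finset.mem_sdiff.1 (hσ1 j)).1, Finset.mem_union_right _ (hσ2 j)⟩
      · rw [hupd i' hi']
        exact ⟨(hM2 i' hi' j).1, Finset.mem_union_left _ (hM2 i' hi' j).2⟩
    · intro j a ha b hb hab
      simp only [Finset.coe_insert, Set.mem_insert_iff, Finset.mem_coe] at ha hb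
      simp only at hab
      rcases ha with rfl | ha
      · rcases hb with rfl | hb
        · rfl
        · exfalso
          rw [Function.update_self, hupd b hb] at hab
          have h1 := (hM2 b hb j).2
          rw [← hab] at h1
          exact (Finset.mem_sdiff.1 (hσ1 j)).2 h1
      · rcases hb with rfl | hb
        · exfalso
          rw [Function.update_self, hupd a ha] at hab
          have h1 := (hM2 a ha j).2
          rw [hab] at h1
          exact (Finset.mem_sdiff.1 (hσ1 j)).2 h1
        · rw [hupd a ha, hupd b hb] at hab
          exact hM3 j ha hb hab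

end

/-- the deterministic part: the events `H0`-`H4` imply a Latin rectangle -/
theorem det (hHall : HallStmt) {n k q : ℕ} (L a0 : ℝ) (G : Fin n → Finset (Cell n)) (hn : 2 ≤ n)
    (hk : k ≤ n) (hq : 0 < q) (hL : 0 < L) (ha0 : a0 ≤ n / 4) (act : Finset (Fin n))
    (hact : act = Finset.univ.filter (fun i : Fin n => (i : ℕ) < k))
    (H0 : ∀ i ∈ act, ¬ Danger L (G i) ∅)
    (H1 : ∀ i ∈ act, ∀ t' t : ℕ, t' ≤ t → t ≤ t' + q → t < k → ∀ v,
      (((G i) ∩ ((run L q G (act.erase i) t).used \ (run L q G (act.erase i) t').used)
        ∩ star v).card : ℝ) ≤ L / 4)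
    (H2 : ∀ i ∈ act, Sparse (L / 4) a0 (G i))
    (H3 : ∀ i ∈ act, ∀ t, t < k → Large a0 (G i) (run L q G (act.erase i) t).used)
    (H4 : ∀ b, q * b < k →
      (act.filter (fun i => Danger L (G i) (run L q G (act.erase i) (q * b)).used)).card ≤ q) :
    Rect k G := by
  have hcard : act.card = k := by
    rw [hact]
    have := Fin.card_filter_val_lt (n := n) (m := k)
    rw [this]; omega
  obtain ⟨M, hM1, hM2, hM3⟩ := build L q G act k hcard
    (fun t ht i hi => has_pm L q G act hHall k a0 hn hq hL ha0 hcard H0 H1 H2 H3 H4 ht hi) k le_rfl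
  have hdone : (run L q G act k).done = act := by
    refine Finset.eq_of_subset_of_card_le (done_subset L q G act k) ?_
    rw [card_done L q G act (by omega)]
    omega
  rw [hdone] at hM1 hM2 hM3
  have hmem : ∀ i : Fin n, (i : ℕ) < k → i ∈ act := by
    intro i hi; rw [hact]; simp [hi]
  refine ⟨M, fun i hi => hM1 i (hmem i hi), fun j => ?_, fun i j hi => (hM2 i (hmem i hi) j).1⟩
  refine (hM3 j).mono ?_
  intro i hi
  exact Finset.mem_coe.2 (hmem i hi)

end Pool.Agent.Helper80.LR
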