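import Pool.Agent.Helper80.LR.Det

set_option autoImplicit false
open Classical Filter Topology

namespace Pool.Agent.Helper80.LR

theorem prN_or_le {n : ℕ} {p : ℝ} (h0 : 0 ≤ p) (h1 : p ≤ 1)
    (A B : (Fin n → Finset (Cell n)) → Prop) :
    prN n p (fun G => A G ∨ B G) ≤ prN n p A + prN n p B := by
  simp only [prN_eq]
  rw [← Finset.sum_add_distrib]
  refine Finset.sum_le_sum fun G _ => ?_
  rw [← mul_add]
  refine mul_le_mul_of_nonneg_left ?_ (W_nonneg h0 h1 G)
  by_cases hA : A G <;> by_cases hB : B G <;> simp [hA, hB]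

theorem pr1_false {n : ℕ} (p : ℝ) {A : Finset (Cell n) → Prop} (h : ∀ G, ¬ A G) :
    pr1 n p A = 0 := by
  rw [pr1_eq]
  exact Finset.sum_eq_zero fun G _ => by rw [if_neg (h G), mul_zero]

theorem prN_false {n : ℕ} (p : ℝ) {A : (Fin n → Finset (Cell n)) → Prop} (h : ∀ G, ¬ A G) :
    prN n p A = 0 := by
  rw [prN_eq]
  exact Finset.sum_eq_zero fun G _ => by rw [if_neg (h G), mul_zero]

/-- the probability that there is no rectangle -/
theorem fail_le (hHall : HallStmt) {n k q : ℕ} {p κ h a0 : ℝ} (h0 : 0 ≤ p) (h1 : p ≤ 1)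
    (hn : 2 ≤ n) (hk : k ≤ n) (hq : 0 < q) (hκ : 0 < κ) (ha0 : a0 ≤ n / 4)
    (hD : ∀ (j : ℕ), j ≤ n → ∀ U : Finset (Cell n), MaxDeg j U →
        pr1 n p (fun G => Danger (κ * Real.log n) G U)
          ≤ 2 * n * Real.exp (-(p * (n - j))) * (n : ℝ) ^ h)
    (hLoss : ∀ W : Finset (Cell n), MaxDeg q W →
        pr1 n p (fun G => ∃ v, κ * Real.log n / 4 < ((G ∩ W ∩ star v).card : ℝ)) ≤ 1 / (n : ℝ) ^ 4)
    (hS : pr1 n p (fun G => ¬ Sparse (κ * Real.log n / 4) a0 G) ≤ 1 / (n : ℝ) ^ 2)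
    (hLarge : ∀ U : Finset (Cell n), MaxDeg k U →
      pr1 n p (fun G => ¬ Large a0 G U) ≤ 1 / (n : ℝ) ^ 4) :
    prN n p (fun G => ¬ Rect k G) ≤
      k * (2 * n * Real.exp (-(p * (n - (0 : ℕ)))) * (n : ℝ) ^ h)
      + (k * (k * k)) * (1 / (n : ℝ) ^ 4) + k * (1 / (n : ℝ) ^ 2) + (k * k) * (1 / (n : ℝ) ^ 4)
      + ((k / q : ℕ) + 1) * (k * (2 * n * Real.exp (-(p * (n - k))) * (n : ℝ) ^ h) / q) := by
  set L : ℝ := κ * Real.log n with hLdef
  have hlog : 0 < Real.log n := Real.log_pos (by exact_mod_cast (by omega : 1 < n))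
  have hL : 0 < L := mul_pos hκ hlog
  set act : Finset (Fin n) := Finset.univ.filter (fun i : Fin n => (i : ℕ) < k) with hact
  have hcard : act.card = k := by
    rw [hact]
    have := Fin.card_filter_val_lt (n := n) (m := k)
    rw [this]; omega
  -- the events
  let E0 : (Fin n → Finset (Cell n)) → Prop := fun G => ∃ i ∈ act, Danger L (G i) ∅
  let E1 : (Fin n → Finset (Cell n)) → Prop := fun G =>
    ∃ x ∈ act ×ˢ (Finset.range k ×ˢ Finset.range k), x.2.1 ≤ x.2.2 ∧ x.2.2 ≤ x.2.1 + q ∧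
      ∃ v, L / 4 < (((G x.1) ∩ ((run L q G (act.erase x.1) x.2.2).used \
        (run L q G (act.erase x.1) x.2.1).used) ∩ star v).card : ℝ)
  let E2 : (Fin n → Finset (Cell n)) → Prop := fun G => ∃ i ∈ act, ¬ Sparse (L / 4) a0 (G i)
  let E3 : (Fin n → Finset (Cell n)) → Prop := fun G =>
    ∃ x ∈ act ×ˢ Finset.range k, ¬ Large a0 (G x.1) (run L q G (act.erase x.1) x.2).used
  let E4 : (Fin n → Finset (Cell n)) → Prop := fun G =>
    ∃ b ∈ Finset.range (k / q + 1), q * b < k ∧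
      q < (act.filter (fun i => Danger L (G i) (run L q G (act.erase i) (q * b)).used)).card
  have hsub : prN n p (fun G => ¬ Rect k G)
      ≤ prN n p (fun G => (((E0 G ∨ E1 G) ∨ E2 G) ∨ E3 G) ∨ E4 G) := by
    refine prN_mono h0 h1 fun G hG => ?_
    by_contra hc
    push Not at hc
    obtain ⟨⟨⟨⟨c0, c1⟩, c2⟩, c3⟩, c4⟩ := hc
    refine hG (det hHall L a0 G hn hk hq hL ha0 act hact ?_ ?_ ?_ ?_ ?_)
    · intro i hi hd; exact c0 ⟨i, hi, hd⟩
    · intro i hi t' t ht' ht htk v
      by_contra hc'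
      refine c1 ⟨(i, (t', t)), ?_, ht', ht, v, not_le.1 hc'⟩
      simp only [Finset.mem_product, Finset.mem_range]
      exact ⟨hi, by omega, htk⟩
    · intro i hi
      by_contra hc'
      exact c2 ⟨i, hi, hc'⟩
    · intro i hi t ht
      by_contra hc'
      refine c3 ⟨(i, t), ?_, hc'⟩
      simp only [Finset.mem_product, Finset.mem_range]
      exact ⟨hi, ht⟩
    · intro b hb
      by_contra hc'
      refine c4 ⟨b, ?_, hb, not_le.1 hc'⟩
      rw [Finset.mem_range, Nat.lt_succ_iff, Nat.le_div_iff_mul_le hq, mul_comm]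
      exact hb.le
  have b0 : prN n p E0 ≤ k * (2 * n * Real.exp (-(p * (n - (0 : ℕ)))) * (n : ℝ) ^ h) := by
    refine (prN_exists_le h0 h1 act (fun i G => Danger L (G i) ∅)).trans ?_
    rw [← hcard, ← nsmul_eq_mul]
    refine Finset.sum_le_card_nsmul _ _ _ fun i _ => ?_
    refine prN_row_le h0 h1 i _ (fun a _ => Danger L a ∅) (fun a b G => Iff.rfl) fun G => ?_
    exact hD 0 (by omega) ∅ (fun v => by simp)
  have b1 : prN n p E1 ≤ (k * (k * k)) * (1 / (n : ℝ) ^ 4) := by
    refine (prN_exists_le h0 h1 _ (fun (x : Fin n × (ℕ × ℕ)) G => x.2.1 ≤ x.2.2 ∧ x.2.2 ≤ x.2.1 + q ∧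
      ∃ v, L / 4 < (((G x.1) ∩ ((run L q G (act.erase x.1) x.2.2).used \
        (run L q G (act.erase x.1) x.2.1).used) ∩ star v).card : ℝ))).trans ?_
    have hc : ((act ×ˢ (Finset.range k ×ˢ Finset.range k)).card : ℝ) = k * (k * k) := by
      rw [Finset.card_product, Finset.card_product, hcard, Finset.card_range]; push_cast; ring
    rw [← hc, ← nsmul_eq_mul]
    refine Finset.sum_le_card_nsmul _ _ _ fun x _ => ?_
    refine prN_row_le h0 h1 x.1 _ (fun a G => x.2.1 ≤ x.2.2 ∧ x.2.2 ≤ x.2.1 + q ∧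
      ∃ v, L / 4 < ((a ∩ ((run L q G (act.erase x.1) x.2.2).used \
        (run L q G (act.erase x.1) x.2.1).used) ∩ star v).card : ℝ)) (fun a b G => ?_) fun G => ?_
    · simp only [run_update]
    · by_cases hx : x.2.1 ≤ x.2.2 ∧ x.2.2 ≤ x.2.1 + q
      · refine (pr1_mono h0 h1 (fun a ha => ha.2.2)).trans (hLoss _ fun v => ?_)
        have := used_diff_card L q G (act.erase x.1) hx.1 v
        omega
      · have hz : pr1 n p (fun a => x.2.1 ≤ x.2.2 ∧ x.2.2 ≤ x.2.1 + q ∧
            ∃ v, L / 4 < ((a ∩ ((run L q G (act.erase x.1) x.2.2).used \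
            (run L q G (act.erase x.1) x.2.1).used) ∩ star v).card : ℝ)) = 0 := by
          exact pr1_false _ (fun a ha => hx ⟨ha.1, ha.2.1⟩)
        rw [hz]; positivity
  have b2 : prN n p E2 ≤ k * (1 / (n : ℝ) ^ 2) := by
    refine (prN_exists_le h0 h1 act (fun i G => ¬ Sparse (L / 4) a0 (G i))).trans ?_
    rw [← hcard, ← nsmul_eq_mul]
    refine Finset.sum_le_card_nsmul _ _ _ fun i _ => ?_
    exact prN_row_le h0 h1 i _ (fun a _ => ¬ Sparse (L / 4) a0 a) (fun a b G => Iff.rfl)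
      fun G => hS
  have b3 : prN n p E3 ≤ (k * k) * (1 / (n : ℝ) ^ 4) := by
    refine (prN_exists_le h0 h1 _ (fun (x : Fin n × ℕ) G =>
      ¬ Large a0 (G x.1) (run L q G (act.erase x.1) x.2).used)).trans ?_
    have hc : ((act ×ˢ Finset.range k).card : ℝ) = k * k := by
      rw [Finset.card_product, hcard, Finset.card_range]; push_cast; ring
    rw [← hc, ← nsmul_eq_mul]
    refine Finset.sum_le_card_nsmul _ _ _ fun x hx => ?_
    refine prN_row_le h0 h1 x.1 _ (fun a G =>
      ¬ Large a0 a (run L q G (act.erase x.1) x.2).used) (fun a b G => ?_) fun G => ?_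
    · simp only [run_update]
    · refine hLarge _ fun v => ?_
      have := used_maxDeg L q G (act.erase x.1) x.2 v
      have h2 := (Finset.mem_product.1 hx).2
      rw [Finset.mem_range] at h2
      omega
  have b4 : prN n p E4
      ≤ ((k / q : ℕ) + 1) * (k * (2 * n * Real.exp (-(p * (n - k))) * (n : ℝ) ^ h) / q) := by
    refine (prN_exists_le h0 h1 _ (fun (b : ℕ) G => q * b < k ∧
      q < (act.filter (fun i => Danger L (G i) (run L q G (act.erase i) (q * b)).used)).card)).trans ?_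
    have hc : ((Finset.range (k / q + 1)).card : ℝ) = ((k / q : ℕ) + 1) := by
      rw [Finset.card_range]; push_cast; ring
    rw [← hc, ← nsmul_eq_mul]
    have hnn : 0 ≤ 2 * (n : ℝ) * Real.exp (-(p * (n - k))) * (n : ℝ) ^ h := by positivity
    refine Finset.sum_le_card_nsmul _ _ _ fun b _ => ?_
    by_cases hb : q * b < k
    · refine (prN_mono h0 h1 (fun G hG => hG.2)).trans ?_
      refine (prN_card_lt h0 h1 act q hq
        (fun i G => Danger L (G i) (run L q G (act.erase i) (q * b)).used)).trans ?_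
      refine div_le_div_of_nonneg_right ?_ (by positivity)
      rw [← hcard, ← nsmul_eq_mul]
      refine Finset.sum_le_card_nsmul _ _ _ fun i _ => ?_
      refine prN_row_le h0 h1 i _ (fun a G => Danger L a (run L q G (act.erase i) (q * b)).used)
        (fun a b' G => ?_) fun G => ?_
      · simp only [run_update]
      · refine (hD k hk _ fun v => ?_).trans (le_of_eq (by rw [hcard]))
        have := used_maxDeg L q G (act.erase i) (q * b) v
        omega
    · have hz : prN n p (fun G => q * b < k ∧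
          q < (act.filter (fun i => Danger L (G i) (run L q G (act.erase i) (q * b)).used)).card)
          = 0 := by
        exact prN_false _ (fun a ha => hb ha.1)
      rw [hz]; positivity
  have s1 := prN_or_le h0 h1 (fun G => ((E0 G ∨ E1 G) ∨ E2 G) ∨ E3 G) E4
  have s2 := prN_or_le h0 h1 (fun G => (E0 G ∨ E1 G) ∨ E2 G) E3
  have s3 := prN_or_le h0 h1 (fun G => E0 G ∨ E1 G) E2
  have s4 := prN_or_le h0 h1 E0 E1
  exact hsub.trans (s1.trans (add_le_add (s2.trans (add_le_add (s3.trans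
    (add_le_add (s4.trans (add_le_add b0 b1)) b2)) b3)) b4))

end Pool.Agent.Helper80.LR
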