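import Pool.Agent.Helper80.LR.Main
import Pool.Agent.Helper85.LR.Danger
import Pool.Agent.Helper40.LR.Loss
import Pool.Agent.Helper93.LR.Sparse
import Pool.Agent.Helper93.LR.Large
import Pool.Agent.Helper28.LR.Hall
import Pool.Agent.Helper14.LR.Mono
import Pool.Agent.Helper9.LR.Transfer
import Pool.Agent.Helper39.LR.Low

/-!
MP_56dece_co: the sharp threshold for `k × n` Latin rectangles with `k ≤ c n`, `c < 1/2`, in the
random triple system `𝕋(K_{n,n,n}, p)` is `log (k n) / n`; in particular, for `k = ⌊c n⌋` it is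
`2 log n / n`, the value conjectured for Latin squares (`k = n`).

`prRect n k p` is the probability that the random subset of `[n]^3`, which contains each triple
independently with probability `p`, contains all cells `(i, j, L i j)` of a Latin rectangle `L` on
the rows `i < k` (rows injective, columns injective).
-/

set_option autoImplicit false
open Classical Filter Topology

namespace Pool.Agent.Results.MP_56dece_co.LatinRectangles

open Pool.Agent.Helper80.LR

theorem result (c : ℝ) (hc : c < 1 / 2) (k : ℕ → ℕ) (hk : ∀ n, 1 ≤ k n)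
    (hkc : ∀ᶠ n : ℕ in atTop, (k n : ℝ) ≤ c * n) (ε : ℝ) (hε : 0 < ε)
    (p : ℕ → ℝ) (hp : ∀ n, 0 ≤ p n ∧ p n ≤ 1) :
    ((∀ᶠ n : ℕ in atTop, (1 + ε) * Real.log ((k n : ℝ) * n) / n ≤ p n) →
      Tendsto (fun n : ℕ => prRect n (k n) (p n)) atTop (𝓝 1)) ∧
    ((∀ᶠ n : ℕ in atTop, p n ≤ (1 - ε) * Real.log ((k n : ℝ) * n) / n) →
      Tendsto (fun n : ℕ => prRect n (k n) (p n)) atTop (𝓝 0)) := by
  refine ⟨fun h => ?_, fun h => ?_⟩
  · exact upper Pool.Agent.Helper85.LR.danger Pool.Agent.Helper40.LR.loss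
      Pool.Agent.Helper93.LR.sparse Pool.Agent.Helper93.LR.large hall Pool.Agent.Helper14.LR.mono
      Pool.Agent.Helper9.LR.transfer c hc k hk hkc ε hε p hp h
  · refine Pool.Agent.Helper39.LR.low k hk ?_ ε hε p hp h
    filter_upwards [hkc] with n hn
    have h0 : (0 : ℝ) ≤ n := Nat.cast_nonneg n
    have h1 : (k n : ℝ) ≤ n := by nlinarith
    exact_mod_cast h1

end Pool.Agent.Results.MP_56dece_co.LatinRectangles
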