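import Pool.Agent.Helper80.LR.Resample

set_option autoImplicit false
open Classical Filter Topology

namespace Pool.Agent.Helper80.LR

/-- state of the row-by-row process -/
structure St (n : ℕ) where
  done : Finset (Fin n)
  used : Finset (Cell n)
  ref : Finset (Cell n)

/-- a perfect matching inside `G` (as a set of cells) if there is one -/
noncomputable def pm {n : ℕ} (G : Finset (Cell n)) : Finset (Cell n) :=
  if h : HasPM G then Finset.univ.image (fun j => (j, h.choose j)) else ∅

/-- the next row: the first dangerous remaining row, otherwise the first remaining row -/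
noncomputable def pick {n : ℕ} (L : ℝ) (G : Fin n → Finset (Cell n)) (rem : Finset (Fin n))
    (ref : Finset (Cell n)) : Option (Fin n) :=
  if h : (rem.filter (fun i => Danger L (G i) ref)).Nonempty then
    some ((rem.filter (fun i => Danger L (G i) ref)).min' h)
  else if h : rem.Nonempty then some (rem.min' h) else none

/-- the reference set during step `t` -/
noncomputable def newRef {n : ℕ} (q t : ℕ) (s : St n) : Finset (Cell n) :=
  if q ∣ t then s.used else s.ref

noncomputable def step {n : ℕ} (L : ℝ) (q : ℕ) (G : Fin n → Finset (Cell n)) (act : Finset (Fin n))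
    (t : ℕ) (s : St n) : St n :=
  match pick L G (act \ s.done) (newRef q t s) with
  | none => ⟨s.done, s.used, newRef q t s⟩
  | some i => ⟨insert i s.done, s.used ∪ pm (G i \ s.used), newRef q t s⟩

noncomputable def run {n : ℕ} (L : ℝ) (q : ℕ) (G : Fin n → Finset (Cell n)) (act : Finset (Fin n)) :
    ℕ → St n
  | 0 => ⟨∅, ∅, ∅⟩
  | t + 1 => step L q G act t (run L q G act t)

section
variable {n : ℕ} (L : ℝ) (q : ℕ) (G : Fin n → Finset (Cell n))

theorem pick_mem {rem : Finset (Fin n)} {ref : Finset (Cell n)} {i : Fin n}
    (h : pick L G rem ref = some i) : i ∈ rem := by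
  unfold pick at h
  split_ifs at h with h1 h2
  · have := Finset.min'_mem _ h1
    simp only [Option.some.injEq] at h
    rw [h] at this
    exact (Finset.mem_filter.1 this).1
  · have := Finset.min'_mem _ h2
    simp only [Option.some.injEq] at h
    rw [h] at this
    exact this

theorem pick_isSome {rem : Finset (Fin n)} (ref : Finset (Cell n)) (h : rem.Nonempty) :
    ∃ i, pick L G rem ref = some i := by
  unfold pick
  split_ifs with h1
  · exact ⟨_, rfl⟩
  · exact ⟨_, rfl⟩

/-- if a dangerous row remains then a dangerous row is picked -/
theorem pick_danger {rem : Finset (Fin n)} {ref : Finset (Cell n)} {i : Fin n}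
    (h : pick L G rem ref = some i) (hne : ∃ j ∈ rem, Danger L (G j) ref) : Danger L (G i) ref := by
  have h1 : (rem.filter (fun i => Danger L (G i) ref)).Nonempty := by
    obtain ⟨j, hj, hd⟩ := hne
    exact ⟨j, Finset.mem_filter.2 ⟨hj, hd⟩⟩
  unfold pick at h
  rw [dif_pos h1] at h
  have := Finset.min'_mem _ h1
  simp only [Option.some.injEq] at h
  rw [h] at this
  exact (Finset.mem_filter.1 this).2

/-- removing a row which is not picked does not change the pick -/
theorem pick_erase {rem : Finset (Fin n)} {ref : Finset (Cell n)} {i k : Fin n}
    (h : pick L G rem ref = some i) (hk : i ≠ k) : pick L G (rem.erase k) ref = some i := by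
  unfold pick at h ⊢
  split_ifs at h with h1 h2
  · simp only [Option.some.injEq] at h
    have hi : i ∈ rem.filter (fun i => Danger L (G i) ref) := by
      have := Finset.min'_mem _ h1; rwa [h] at this
    have hi' : i ∈ (rem.erase k).filter (fun i => Danger L (G i) ref) := by
      rw [Finset.mem_filter] at hi ⊢
      exact ⟨Finset.mem_erase.2 ⟨hk, hi.1⟩, hi.2⟩
    have hne : ((rem.erase k).filter (fun i => Danger L (G i) ref)).Nonempty := ⟨i, hi'⟩
    rw [dif_pos hne]
    simp only [Option.some.injEq]
    apply le_antisymm
    · exact Finset.min'_le _ _ hi'
    · rw [← h]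
      refine Finset.min'_le _ _ ?_
      have := Finset.min'_mem _ hne
      rw [Finset.mem_filter] at this ⊢
      exact ⟨(Finset.mem_erase.1 this.1).2, this.2⟩
  · simp only [Option.some.injEq] at h
    have hnot : ¬ ((rem.erase k).filter (fun i => Danger L (G i) ref)).Nonempty := by
      rintro ⟨j, hj⟩
      rw [Finset.mem_filter] at hj
      exact h1 ⟨j, Finset.mem_filter.2 ⟨(Finset.mem_erase.1 hj.1).2, hj.2⟩⟩
    have hi : i ∈ rem := by
      have := Finset.min'_mem _ h2; rwa [h] at this
    have hi' : i ∈ rem.erase k := Finset.mem_erase.2 ⟨hk, hi⟩
    have hne : (rem.erase k).Nonempty := ⟨i, hi'⟩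
    rw [dif_neg hnot, dif_pos hne]
    simp only [Option.some.injEq]
    apply le_antisymm
    · exact Finset.min'_le _ _ hi'
    · rw [← h]
      refine Finset.min'_le _ _ ?_
      exact (Finset.mem_erase.1 (Finset.min'_mem _ hne)).2

theorem pick_congr {G G' : Fin n → Finset (Cell n)} {rem : Finset (Fin n)} {ref : Finset (Cell n)}
    (h : ∀ i ∈ rem, G i = G' i) : pick L G rem ref = pick L G' rem ref := by
  have : rem.filter (fun i => Danger L (G i) ref) = rem.filter (fun i => Danger L (G' i) ref) := by
    refine Finset.filter_congr fun i hi => ?_
    rw [h i hi]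
  unfold pick
  simp only [this]

variable (act : Finset (Fin n))

theorem run_succ (t : ℕ) : run L q G act (t + 1) = step L q G act t (run L q G act t) := rfl

theorem done_subset (t : ℕ) : (run L q G act t).done ⊆ act := by
  induction t with
  | zero => simp [run]
  | succ t ih =>
    rw [run_succ, step]
    split
    · exact ih
    · rename_i i hi
      have := pick_mem L G hi
      exact Finset.insert_subset (Finset.mem_sdiff.1 this).1 ih

theorem done_mono_succ (t : ℕ) : (run L q G act t).done ⊆ (run L q G act (t + 1)).done := by
  rw [run_succ, step]
  split
  · exact subset_rfl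
  · exact Finset.subset_insert _ _

theorem done_mono {s t : ℕ} (h : s ≤ t) : (run L q G act s).done ⊆ (run L q G act t).done := by
  induction t, h using Nat.le_induction with
  | base => exact subset_rfl
  | succ t _ ih => exact ih.trans (done_mono_succ L q G act t)

theorem used_mono_succ (t : ℕ) : (run L q G act t).used ⊆ (run L q G act (t + 1)).used := by
  rw [run_succ, step]
  split
  · exact subset_rfl
  · exact Finset.subset_union_left

theorem used_mono {s t : ℕ} (h : s ≤ t) : (run L q G act s).used ⊆ (run L q G act t).used := by
  induction t, h using Nat.le_induction with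
  | base => exact subset_rfl
  | succ t _ ih => exact ih.trans (used_mono_succ L q G act t)

theorem card_done {t : ℕ} (ht : t ≤ act.card) : (run L q G act t).done.card = t := by
  induction t with
  | zero => simp [run]
  | succ t ih =>
    have ih' := ih (by omega)
    have hne : (act \ (run L q G act t).done).Nonempty := by
      rw [← Finset.card_pos, Finset.card_sdiff_of_subset (done_subset L q G act t)]
      omega
    obtain ⟨i, hi⟩ := pick_isSome L G (newRef q t (run L q G act t)) hne
    rw [run_succ, step, hi]
    show (insert i (run L q G act t).done).card = t + 1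
    rw [Finset.card_insert_of_notMem (Finset.mem_sdiff.1 (pick_mem L G hi)).2, ih']

/-- the reference set of step `t` is the used set at the last multiple of `q` -/
theorem newRef_run (t : ℕ) :
    newRef q t (run L q G act t) = (run L q G act (q * (t / q))).used := by
  induction t with
  | zero => simp [newRef, run]
  | succ t ih =>
    unfold newRef
    split_ifs with h
    · rw [Nat.mul_div_cancel' h]
    · have h2 : (run L q G act (t + 1)).ref = newRef q t (run L q G act t) := by
        rw [run_succ, step]
        split <;> rfl
      rw [h2, ih]
      congr 3
      rw [Nat.succ_div, if_neg h, add_zero]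

/-- independence: as long as row `i` is not processed, the process is the one without row `i` -/
theorem run_erase {i : Fin n} {t : ℕ} (h : i ∉ (run L q G act t).done) :
    run L q G (act.erase i) t = run L q G act t := by
  induction t with
  | zero => rfl
  | succ t ih =>
    have h1 : i ∉ (run L q G act t).done := fun hc => h (done_mono_succ L q G act t hc)
    have ih' := ih h1
    rw [run_succ, run_succ, ih']
    rw [run_succ] at h
    generalize run L q G act t = s at h h1 ⊢
    have herase : act.erase i \ s.done = (act \ s.done).erase i := by
      ext x; simp only [Finset.mem_sdiff, Finset.mem_erase]; tauto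
    unfold step at h ⊢
    rw [herase]
    cases hp : pick L G (act \ s.done) (newRef q t s) with
    | none =>
      have hemp : act \ s.done = ∅ := by
        by_contra hne
        obtain ⟨j, hj⟩ := pick_isSome L G (newRef q t s) (Finset.nonempty_iff_ne_empty.2 hne)
        rw [hp] at hj; exact absurd hj (by simp)
      rw [hemp] at hp
      rw [hemp, Finset.erase_empty, hp]
    | some j =>
      rw [hp] at h
      have hji : j ≠ i := by
        rintro rfl
        exact h (Finset.mem_insert_self _ _)
      rw [pick_erase L G hp hji]

/-- the process does not look at rows outside `act` -/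
theorem run_congr {G G' : Fin n → Finset (Cell n)} (h : ∀ i ∈ act, G i = G' i) (t : ℕ) :
    run L q G act t = run L q G' act t := by
  induction t with
  | zero => rfl
  | succ t ih =>
    rw [run_succ, run_succ, ih]
    generalize run L q G' act t = s
    unfold step
    rw [pick_congr L (fun i hi => h i (Finset.mem_sdiff.1 hi).1)]
    cases hp : pick L G' (act \ s.done) (newRef q t s) with
    | none => rfl
    | some j =>
      have hj := (Finset.mem_sdiff.1 (pick_mem L G' hp)).1
      show St.mk _ (s.used ∪ pm (G j \ s.used)) _ = St.mk _ (s.used ∪ pm (G' j \ s.used)) _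
      rw [h j hj]

theorem run_update (i : Fin n) (b : Finset (Cell n)) (t : ℕ) :
    run L q (Function.update G i b) (act.erase i) t = run L q G (act.erase i) t := by
  refine run_congr L q (act.erase i) (fun j hj => ?_) t
  rw [Function.update_of_ne (Finset.ne_of_mem_erase hj)]

theorem pm_inter_star_card (X : Finset (Cell n)) (v : Fin n ⊕ Fin n) :
    (pm X ∩ star v).card ≤ 1 := by
  unfold pm
  split_ifs with h
  · rw [Finset.card_le_one]
    intro a ha b hb
    simp only [Finset.mem_inter, Finset.mem_image, Finset.mem_univ, true_and, star,
      Finset.mem_filter] at ha hb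
    obtain ⟨⟨j, rfl⟩, h1⟩ := ha
    obtain ⟨⟨k, rfl⟩, h2⟩ := hb
    rcases v with v | v
    · simp only [Sum.elim_inl] at h1 h2
      rw [h1, h2]
    · simp only [Sum.elim_inr] at h1 h2
      have : j = k := h.choose.injective (h1.trans h2.symm)
      rw [this]
  · simp

theorem used_diff_card {s t : ℕ} (h : s ≤ t) (v : Fin n ⊕ Fin n) :
    (((run L q G act t).used \ (run L q G act s).used) ∩ star v).card ≤ t - s := by
  induction t, h using Nat.le_induction with
  | base => simp
  | succ t hst ih =>
    have hsub : ((run L q G act (t + 1)).used \ (run L q G act s).used) ∩ star v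
        ⊆ (((run L q G act t).used \ (run L q G act s).used) ∩ star v) ∪
          (((run L q G act (t + 1)).used \ (run L q G act t).used) ∩ star v) := by
      intro x hx
      simp only [Finset.mem_inter, Finset.mem_sdiff, Finset.mem_union] at hx ⊢
      tauto
    have h1 : (((run L q G act (t + 1)).used \ (run L q G act t).used) ∩ star v).card ≤ 1 := by
      rw [run_succ, step]
      split
      · simp
      · rename_i i hi
        refine le_trans (Finset.card_le_card ?_) (pm_inter_star_card (G i \ (run L q G act t).used) v)
        intro x hx
        simp only [Finset.mem_inter, Finset.mem_sdiff, Finset.mem_union] at hx ⊢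
        tauto
    have := Finset.card_le_card hsub
    have := Finset.card_union_le (((run L q G act t).used \ (run L q G act s).used) ∩ star v)
      (((run L q G act (t + 1)).used \ (run L q G act t).used) ∩ star v)
    omega

theorem used_maxDeg (t : ℕ) : MaxDeg t (run L q G act t).used := by
  intro v
  have := used_diff_card L q G act (Nat.zero_le t) v
  simpa [run] using this

end

end Pool.Agent.Helper80.LR
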