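import Pool.Agent.Helper80.LR.Spec

set_option autoImplicit false
open Classical Filter Topology

namespace Pool.Agent.Helper80.LR

/-- resampling one coordinate does not change expectations under a product weight -/
theorem resample {ι α : Type*} [Fintype ι] [DecidableEq ι] [Fintype α] (w : α → ℝ)
    (hw : ∑ a, w a = 1) (f : (ι → α) → ℝ) (i : ι) :
    ∑ G : ι → α, (∏ j, w (G j)) * f G
      = ∑ G : ι → α, (∏ j, w (G j)) * ∑ a, w a * f (Function.update G i a) := by
  have h1 : ∑ G : ι → α, (∏ j, w (G j)) * ∑ a, w a * f (Function.update G i a)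
      = ∑ x : (ι → α) × α, (∏ j, w (x.1 j)) * (w x.2 * f (Function.update x.1 i x.2)) := by
    rw [Fintype.sum_prod_type]
    refine Finset.sum_congr rfl fun G _ => ?_
    rw [Finset.mul_sum]
  have h2 : ∑ x : (ι → α) × α, (∏ j, w (x.1 j)) * (w x.2 * f (Function.update x.1 i x.2))
      = ∑ x : (ι → α) × α, (∏ j, w (x.1 j)) * (w x.2 * f x.1) := by
    let e : (ι → α) × α ≃ (ι → α) × α :=
      { toFun := fun x => (Function.update x.1 i x.2, x.1 i)
        invFun := fun x => (Function.update x.1 i x.2, x.1 i)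
        left_inv := by
          intro x; ext1
          · simp
          · simp
        right_inv := by
          intro x; ext1
          · simp
          · simp }
    have hprod : ∀ (G : ι → α) (a : α), (∏ j, w (Function.update G i a j)) * w (G i)
        = (∏ j, w (G j)) * w a := by
      intro G a
      rw [← Finset.mul_prod_erase Finset.univ (fun j => w (Function.update G i a j)) (Finset.mem_univ i),
        ← Finset.mul_prod_erase Finset.univ (fun j => w (G j)) (Finset.mem_univ i)]
      have : ∏ j ∈ Finset.univ.erase i, w (Function.update G i a j)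
          = ∏ j ∈ Finset.univ.erase i, w (G j) := by
        refine Finset.prod_congr rfl fun j hj => ?_
        rw [Function.update_of_ne (Finset.ne_of_mem_erase hj)]
      rw [this, Function.update_self]; ring
    refine Fintype.sum_equiv e _ _ fun x => ?_
    show (∏ j, w (x.1 j)) * (w x.2 * f (Function.update x.1 i x.2))
      = (∏ j, w (Function.update x.1 i x.2 j)) * (w (x.1 i) * f (Function.update x.1 i x.2))
    have := hprod x.1 x.2
    calc (∏ j, w (x.1 j)) * (w x.2 * f (Function.update x.1 i x.2))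
        = ((∏ j, w (x.1 j)) * w x.2) * f (Function.update x.1 i x.2) := by ring
      _ = ((∏ j, w (Function.update x.1 i x.2 j)) * w (x.1 i)) * f (Function.update x.1 i x.2) := by
          rw [this]
      _ = _ := by ring
  rw [h1, h2, Fintype.sum_prod_type]
  refine Finset.sum_congr rfl fun G _ => ?_
  show (∏ j, w (G j)) * f G = ∑ y : α, (∏ j, w (G j)) * (w y * f G)
  rw [← Finset.mul_sum]
  congr 1
  rw [← Finset.sum_mul, hw, one_mul]

/-- weights of a product configuration -/
noncomputable def W {n : ℕ} (p : ℝ) (G : Fin n → Finset (Cell n)) : ℝ := ∏ i, wt n p (G i)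

theorem W_nonneg {n : ℕ} {p : ℝ} (h0 : 0 ≤ p) (h1 : p ≤ 1) (G : Fin n → Finset (Cell n)) :
    0 ≤ W p G := Finset.prod_nonneg fun i _ => wt_nonneg h0 h1 _

theorem sum_W (n : ℕ) (p : ℝ) : ∑ G : Fin n → Finset (Cell n), W p G = 1 := by
  unfold W
  rw [← Fintype.piFinset_univ, ← Finset.prod_univ_sum]
  simp [sum_wt]

theorem prN_eq {n : ℕ} (p : ℝ) (A : (Fin n → Finset (Cell n)) → Prop) :
    prN n p A = ∑ G, W p G * (if A G then 1 else 0) := by
  unfold prN W
  rw [Finset.sum_filter]
  refine Finset.sum_congr rfl fun G _ => ?_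
  split_ifs <;> simp

theorem pr1_eq {n : ℕ} (p : ℝ) (A : Finset (Cell n) → Prop) :
    pr1 n p A = ∑ G, wt n p G * (if A G then 1 else 0) := by
  unfold pr1
  rw [Finset.sum_filter]
  refine Finset.sum_congr rfl fun G _ => ?_
  split_ifs <;> simp

/-- one row event relative to the other rows: if for every configuration the conditional
probability is at most `B` then the probability is at most `B` -/
theorem prN_row_le {n : ℕ} {p : ℝ} (h0 : 0 ≤ p) (h1 : p ≤ 1) (i : Fin n) (B : ℝ)
    (A : Finset (Cell n) → (Fin n → Finset (Cell n)) → Prop)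
    (hA : ∀ (a b : Finset (Cell n)) (G : Fin n → Finset (Cell n)),
      A a (Function.update G i b) ↔ A a G)
    (hB : ∀ G, pr1 n p (fun a => A a G) ≤ B) :
    prN n p (fun G => A (G i) G) ≤ B := by
  rw [prN_eq]
  have h := resample (ι := Fin n) (wt n p) (sum_wt n p) (fun G => if A (G i) G then (1:ℝ) else 0) i
  have h' : ∑ G, W p G * (if A (G i) G then (1:ℝ) else 0)
      = ∑ G, W p G * pr1 n p (fun a => A a G) := by
    unfold W
    rw [h]
    refine Finset.sum_congr rfl fun G _ => ?_
    rw [pr1_eq]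
    congr 1
    refine Finset.sum_congr rfl fun a _ => ?_
    rw [Function.update_self]
    congr 1
    exact if_congr (hA a a G) rfl rfl
  rw [h']
  calc ∑ G, W p G * pr1 n p (fun a => A a G) ≤ ∑ G : Fin n → Finset (Cell n), W p G * B := by
        refine Finset.sum_le_sum fun G _ => mul_le_mul_of_nonneg_left (hB G) (W_nonneg h0 h1 G)
    _ = B := by rw [← Finset.sum_mul, sum_W, one_mul]

/-- union bound for several rows -/
theorem prN_exists_le {n : ℕ} {p : ℝ} (h0 : 0 ≤ p) (h1 : p ≤ 1) {β : Type*} (s : Finset β)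
    (A : β → (Fin n → Finset (Cell n)) → Prop) :
    prN n p (fun G => ∃ b ∈ s, A b G) ≤ ∑ b ∈ s, prN n p (A b) := by
  simp only [prN_eq]
  rw [Finset.sum_comm]
  refine Finset.sum_le_sum fun G _ => ?_
  rw [← Finset.mul_sum]
  refine mul_le_mul_of_nonneg_left ?_ (W_nonneg h0 h1 G)
  split_ifs with hG
  · obtain ⟨b, hb, hA⟩ := hG
    have : (if A b G then (1:ℝ) else 0) ≤ ∑ b ∈ s, if A b G then (1:ℝ) else 0 :=
      Finset.single_le_sum (f := fun b => if A b G then (1:ℝ) else 0)
        (fun b _ => by split_ifs <;> norm_num) hb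
    rwa [if_pos hA] at this
  · exact Finset.sum_nonneg fun b _ => by split_ifs <;> norm_num

theorem prN_mono {n : ℕ} {p : ℝ} (h0 : 0 ≤ p) (h1 : p ≤ 1)
    {A B : (Fin n → Finset (Cell n)) → Prop} (h : ∀ G, A G → B G) : prN n p A ≤ prN n p B := by
  simp only [prN_eq]
  refine Finset.sum_le_sum fun G _ => mul_le_mul_of_nonneg_left ?_ (W_nonneg h0 h1 G)
  by_cases hA : A G
  · rw [if_pos hA, if_pos (h G hA)]
  · rw [if_neg hA]; split_ifs <;> norm_num

theorem prN_compl {n : ℕ} (p : ℝ) (A : (Fin n → Finset (Cell n)) → Prop) :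
    prN n p A + prN n p (fun G => ¬ A G) = 1 := by
  rw [prN_eq, prN_eq, ← Finset.sum_add_distrib]
  conv_rhs => rw [← sum_W n p]
  refine Finset.sum_congr rfl fun G _ => ?_
  by_cases h : A G
  · rw [if_pos h, if_neg (not_not.2 h)]; ring
  · rw [if_neg h, if_pos h]; ring

/-- Markov: if `card {i ∈ act | A i (G i) G} > q` (natural numbers) -/
theorem prN_card_lt {n : ℕ} {p : ℝ} (h0 : 0 ≤ p) (h1 : p ≤ 1) (act : Finset (Fin n)) (q : ℕ)
    (hq : 0 < q) (A : Fin n → (Fin n → Finset (Cell n)) → Prop) :
    prN n p (fun G => q < (act.filter (fun i => A i G)).card)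
      ≤ (∑ i ∈ act, prN n p (A i)) / q := by
  have hq' : (0:ℝ) < q := by exact_mod_cast hq
  rw [le_div_iff₀ hq', prN_eq, Finset.sum_mul]
  simp only [prN_eq]
  rw [Finset.sum_comm]
  refine Finset.sum_le_sum fun G _ => ?_
  rw [← Finset.mul_sum, mul_assoc]
  refine mul_le_mul_of_nonneg_left ?_ (W_nonneg h0 h1 G)
  have hc : ∑ i ∈ act, (if A i G then (1:ℝ) else 0) = ((act.filter (fun i => A i G)).card : ℝ) := by
    rw [Finset.sum_boole]
  rw [hc]
  split_ifs with h
  · rw [one_mul]; exact_mod_cast h.le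
  · rw [zero_mul]; positivity

end Pool.Agent.Helper80.LR
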