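import Pool.Agent.Helper80.LR.Defs

/-!
Statements of the modules of project LR, as propositions.
-/

set_option autoImplicit false
open Classical Filter Topology

namespace Pool.Agent.Helper80.LR

/-- LR-1 -/
def DangerStmt : Prop :=
  ∀ h : ℝ, 0 < h → ∃ κ : ℝ, 0 < κ ∧ κ ≤ 1 ∧
    ∀ (n k : ℕ) (p : ℝ), 2 ≤ n → k ≤ n → 0 ≤ p → p ≤ 1 → p * n ≤ 3 * Real.log n →
      ∀ U : Finset (Cell n), MaxDeg k U →
        pr1 n p (fun G => Danger (κ * Real.log n) G U)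
          ≤ 2 * n * Real.exp (-(p * (n - k))) * (n : ℝ) ^ h

/-- LR-2 -/
def LossStmt : Prop :=
  ∀ κ δ : ℝ, 0 < κ → 0 < δ → ∃ N : ℕ, ∀ n : ℕ, N ≤ n → ∀ p : ℝ, 0 ≤ p → p ≤ 1 →
    p * n ≤ 3 * Real.log n → ∀ q : ℕ, (q : ℝ) ≤ 2 * (n : ℝ) ^ (1 - δ) →
      ∀ W : Finset (Cell n), MaxDeg q W →
        pr1 n p (fun G => ∃ v, κ * Real.log n / 4 < ((G ∩ W ∩ star v).card : ℝ)) ≤ 1 / (n : ℝ) ^ 4

/-- LR-3 -/
def SparseStmt : Prop :=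
  ∀ κ : ℝ, 0 < κ → ∃ c1 : ℝ, 0 < c1 ∧ c1 ≤ 1 / 4 ∧ ∃ N : ℕ, ∀ n : ℕ, N ≤ n → ∀ p : ℝ, 0 ≤ p →
    p ≤ 1 → p * n ≤ 3 * Real.log n →
      pr1 n p (fun G => ¬ Sparse (κ * Real.log n / 4) (c1 * n) G) ≤ 1 / (n : ℝ) ^ 2

/-- LR-4 -/
def LargeStmt : Prop :=
  ∀ c c1 : ℝ, c < 1 / 2 → 0 < c1 → ∃ N : ℕ, ∀ n : ℕ, N ≤ n → ∀ p : ℝ, 0 ≤ p → p ≤ 1 →
    Real.log n ≤ p * n → ∀ (k : ℕ) (U : Finset (Cell n)), (k : ℝ) ≤ c * n → MaxDeg k U →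
      pr1 n p (fun G => ¬ Large (c1 * n) G U) ≤ 1 / (n : ℝ) ^ 4

/-- LR-5 -/
def HallStmt : Prop :=
  ∀ (n : ℕ) (d a0 : ℝ) (G U : Finset (Cell n)), 2 ≤ n → 0 < d → a0 ≤ n / 4 →
    (∀ v, d ≤ (((G \ U) ∩ star v).card : ℝ)) → Sparse d a0 G → Large a0 G U → HasPM (G \ U)

/-- LR-6: monotonicity of the probability of an increasing event -/
def MonoStmt : Prop :=
  ∀ (X : Type) [Fintype X] (A : Finset X → Prop), (∀ S T, S ⊆ T → A S → A T) →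
    ∀ p q : ℝ, 0 ≤ p → p ≤ q → q ≤ 1 →
      ∑ S ∈ (Finset.univ : Finset (Finset X)).filter A,
          p ^ S.card * (1 - p) ^ (Fintype.card X - S.card)
        ≤ ∑ S ∈ (Finset.univ : Finset (Finset X)).filter A,
          q ^ S.card * (1 - q) ^ (Fintype.card X - S.card)

/-- LR-7: transfer to rows -/
def TransferStmt : Prop :=
  ∀ (n k : ℕ) (p : ℝ), prRect n k p = prN n p (Rect k)

/-- LR-8: lower bound for the threshold -/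
def LowStmt : Prop :=
  ∀ (k : ℕ → ℕ), (∀ n, 1 ≤ k n) → (∀ᶠ n : ℕ in atTop, k n ≤ n) → ∀ ε : ℝ, 0 < ε →
    ∀ p : ℕ → ℝ, (∀ n, 0 ≤ p n ∧ p n ≤ 1) →
      (∀ᶠ n : ℕ in atTop, p n ≤ (1 - ε) * Real.log ((k n : ℝ) * n) / n) →
        Tendsto (fun n : ℕ => prRect n (k n) (p n)) atTop (𝓝 0)

end Pool.Agent.Helper80.LR
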